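import Mathlib

/-!
Three parabolas in `F_p × F_p`, `p ≡ 5 mod 24`.
-/

set_option autoImplicit false

namespace Pool.Agent.H41.DS

open Finset

variable {p : ℕ} [Fact p.Prime]

theorem isSquare_mul_of_not {x y : ZMod p} (hx : ¬ IsSquare x) (hy : ¬ IsSquare y) :
    IsSquare (x * y) := by
  have hx0 : x ≠ 0 := fun h => hx (h ▸ IsSquare.zero)
  have hy0 : y ≠ 0 := fun h => hy (h ▸ IsSquare.zero)
  have h1 := (quadraticChar_neg_one_iff_not_isSquare (a := x)).mpr hx
  have h2 := (quadraticChar_neg_one_iff_not_isSquare (a := y)).mpr hy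
  rw [← quadraticChar_one_iff_isSquare (mul_ne_zero hx0 hy0), map_mul, h1, h2]
  norm_num

theorem not_sq_two_three : ¬ IsSquare (2 : ZMod 3) := by decide

/-- Nonzero elements of `ZMod p` from integers. -/
theorem natCast_ne_zero_of_lt {n : ℕ} (h0 : 0 < n) (hn : n < p) : (n : ZMod p) ≠ 0 := by
  intro h
  rw [ZMod.natCast_eq_zero_iff] at h
  exact absurd (Nat.le_of_dvd h0 h) (by omega)

/-- The coefficients. -/
structure Coef (p : ℕ) [Fact p.Prime] where
  c : Fin 3 → ZMod p
  ne : ∀ i j, c i + c j ≠ 0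
  ne0 : ∀ i, c i ≠ 0
  cover : ∀ s t : ZMod p, ∃ i j x, c i * x ^ 2 + c j * (s - x) ^ 2 = t

theorem exists_coef (hp : p % 24 = 5) (hp10 : 10 < p) : Nonempty (Coef p) := by
  have hp2 : p ≠ 2 := by omega
  have h2 : ¬ IsSquare (2 : ZMod p) := by
    rw [ZMod.exists_sq_eq_two_iff hp2]; omega
  have h3 : ¬ IsSquare (3 : ZMod p) := by
    have : Fact (Nat.Prime 3) := ⟨Nat.prime_three⟩
    have h4 := ZMod.exists_sq_eq_prime_iff_of_mod_four_eq_one (p := p) (q := 3) (by omega)
      (by norm_num)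
    have h3' : ((3 : ℕ) : ZMod p) = 3 := by norm_cast
    rw [h3'] at h4
    rw [h4]
    have hp3 : (p : ZMod 3) = 2 := by
      have h5 : (p : ZMod 3) = ((p % 3 : ℕ) : ZMod 3) := by
        rw [ZMod.natCast_mod]
      rw [h5, show p % 3 = 2 by omega]; rfl
    rw [hp3]
    exact not_sq_two_three
  obtain ⟨e, he⟩ := isSquare_mul_of_not h2 h3
  have hn : ∀ n : ℕ, 0 < n → n ≤ 10 → (n : ZMod p) ≠ 0 := fun n h0 h1 =>
    natCast_ne_zero_of_lt h0 (by omega)
  have n2 : (2 : ZMod p) ≠ 0 := by exact_mod_cast hn 2 (by norm_num) (by norm_num)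
  have n3 : (3 : ZMod p) ≠ 0 := by exact_mod_cast hn 3 (by norm_num) (by norm_num)
  have n6 : (6 : ZMod p) ≠ 0 := by exact_mod_cast hn 6 (by norm_num) (by norm_num)
  have n10 : (10 : ZMod p) ≠ 0 := by exact_mod_cast hn 10 (by norm_num) (by norm_num)
  set a : ZMod p := 3 + e with ha
  set b : ZMod p := 3 - e with hb
  have hab : a * b = 3 := by
    rw [ha, hb]; linear_combination he
  have hsum : a + b = 6 := by rw [ha, hb]; ring
  have a0 : a ≠ 0 := fun h => n3 (by rw [← hab, h, zero_mul])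
  have b0 : b ≠ 0 := fun h => n3 (by rw [← hab, h, mul_zero])
  have h10 : (1 + a) * (1 + b) = 10 := by linear_combination hab + hsum
  have a1 : 1 + a ≠ 0 := fun h => n10 (by rw [← h10, h, zero_mul])
  have b1 : 1 + b ≠ 0 := fun h => n10 (by rw [← h10, h, mul_zero])
  refine ⟨⟨![1, a, b], ?_, ?_, ?_⟩⟩
  · intro i j
    fin_cases i <;> fin_cases j <;> simp only [Fin.zero_eta, Fin.mk_one, Fin.reduceFinMk,
      Matrix.cons_val_zero, Matrix.cons_val_one, Matrix.cons_val]
    · rw [one_add_one_eq_two]; exact n2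
    · exact a1
    · exact b1
    · rw [add_comm]; exact a1
    · rw [← two_mul]; exact mul_ne_zero n2 a0
    · rw [hsum]; exact n6
    · rw [add_comm]; exact b1
    · rw [add_comm, hsum]; exact n6
    · rw [← two_mul]; exact mul_ne_zero n2 b0
  · intro i
    fin_cases i
    · exact one_ne_zero
    · exact a0
    · exact b0
  · intro s t
    by_cases hsq : IsSquare (2 * t - s ^ 2)
    · obtain ⟨r, hr⟩ := hsq
      refine ⟨0, 0, (s + r) / 2, ?_⟩
      simp only [Matrix.cons_val_zero, one_mul]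
      field_simp
      linear_combination -2 * hr
    · obtain ⟨r, hr⟩ := isSquare_mul_of_not h3 hsq
      refine ⟨1, 2, (b * s + r) / 6, ?_⟩
      simp only [Matrix.cons_val_one, Matrix.cons_val_zero, Matrix.cons_val]
      have ha' : a = 6 - b := by linear_combination hsum
      have hb' : b ^ 2 = 6 * b - 3 := by
        rw [ha'] at hab; linear_combination -hab
      rw [ha']
      have hr' : r * r = 6 * t - 3 * s ^ 2 := by linear_combination -hr
      have h36 : (6 - b) * ((b * s + r) / 6) ^ 2 + b * (s - (b * s + r) / 6) ^ 2 - t =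
          (r * r - (6 * t - 3 * s ^ 2)) / 6 + s ^ 2 / 6 * (-(b ^ 2) + 6 * b - 3) := by
        field_simp
        ring
      have h37 : -(b ^ 2) + 6 * b - 3 = 0 := by linear_combination -hb'
      rw [hr', h37, sub_self, zero_div, mul_zero, add_zero] at h36
      exact sub_eq_zero.mp h36

/-- A quadratic has at most two roots. -/
theorem card_roots_le_two {A B C : ZMod p} (hA : A ≠ 0) :
    (univ.filter fun x : ZMod p => A * x ^ 2 + B * x + C = 0).card ≤ 2 := by
  by_contra hcon
  push Not at hcon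
  obtain ⟨x, hx, y, hy, z, hz, hxy, hxz, hyz⟩ := Finset.two_lt_card.mp hcon
  simp only [Finset.mem_filter, Finset.mem_univ, true_and] at hx hy hz
  have h1 : (x - y) * (A * (x + y) + B) = 0 := by linear_combination hx - hy
  have h2 : (x - z) * (A * (x + z) + B) = 0 := by linear_combination hx - hz
  have h3 := (mul_eq_zero.mp h1).resolve_left (sub_ne_zero.mpr hxy)
  have h4 := (mul_eq_zero.mp h2).resolve_left (sub_ne_zero.mpr hxz)
  have h5 : A * (y - z) = 0 := by linear_combination h3 - h4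
  exact hyz (sub_eq_zero.mp ((mul_eq_zero.mp h5).resolve_left hA))

theorem exists_prime_coef (M : ℕ) : ∃ p : ℕ, M < p ∧ ∃ h : Fact p.Prime, Nonempty (@Coef p h) := by
  have hu : IsUnit (5 : ZMod 24) := by decide
  obtain ⟨p, hpM, hp, hp5⟩ := Nat.forall_exists_prime_gt_and_eq_mod hu (max M 10)
  refine ⟨p, by omega, ⟨hp⟩, ?_⟩
  have : Fact p.Prime := ⟨hp⟩
  have h24 : p % 24 = 5 := by
    have h1 : ((p : ℕ) : ZMod 24) = ((5 : ℕ) : ZMod 24) := by rw [hp5]; norm_cast
    rw [ZMod.natCast_eq_natCast_iff] at h1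
    exact h1
  exact exists_coef h24 (by omega)

end Pool.Agent.H41.DS
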