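import Pool.Agent.H41.DS.Set

/-!
Gluing the scales.
-/

set_option autoImplicit false

namespace Pool.Agent.H41.DS

open Finset

/-- Abstract gluing: scales far apart. -/
theorem glue {R w : ℕ} (S : ℕ → Finset ℕ) (ν : ℕ → ℕ)
    (hrep : ∀ k m, ((S k ×ˢ S k).filter fun z => z.1 + z.2 = m).card ≤ R)
    (hwin : ∀ k u, ((S k).filter fun x => u ≤ x ∧ x < u + (2 * ν k + 1 + k)).card ≤ w)
    (hν : ∀ k, ∀ x ∈ S k, 2 * ν k + x < ν (k + 1)) (hmono : Monotone ν) (m : ℕ) :
    {z : ℕ × ℕ | (∃ k, ∃ x ∈ S k, z.1 = 2 * ν k + x) ∧ (∃ k, ∃ x ∈ S k, z.2 = 2 * ν k + x) ∧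
      z.1 + z.2 = m}.encard ≤ R + 2 * w := by
  classical
  rcases Set.eq_empty_or_nonempty {z : ℕ × ℕ | (∃ k, ∃ x ∈ S k, z.1 = 2 * ν k + x) ∧
    (∃ k, ∃ x ∈ S k, z.2 = 2 * ν k + x) ∧ z.1 + z.2 = m} with h0 | ⟨z₀, hz₀⟩
  · rw [h0]; simp
  -- the top scale is determined by `m`
  have top : ∀ z : ℕ × ℕ, ∀ i j : ℕ, ∀ x ∈ S i, ∀ y ∈ S j, z.1 = 2 * ν i + x →
      z.2 = 2 * ν j + y → z.1 + z.2 = m → 2 * ν (max i j) ≤ m ∧ m < 2 * ν (max i j + 1) := by
    intro z i j x hx y hy h1 h2 h3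
    have a1 := hν i x hx
    have a2 := hν j y hy
    have b1 : ν (i + 1) ≤ ν (max i j + 1) := hmono (by omega)
    have b2 : ν (j + 1) ≤ ν (max i j + 1) := hmono (by omega)
    refine ⟨?_, by omega⟩
    rcases le_total i j with h | h
    · rw [max_eq_right h]; omega
    · rw [max_eq_left h]; omega
  obtain ⟨⟨i₀, x₀, hx₀, e₀⟩, ⟨j₀, y₀, hy₀, f₀⟩, s₀⟩ := hz₀
  have t₀ := top z₀ i₀ j₀ x₀ hx₀ y₀ hy₀ e₀ f₀ s₀
  set k := max i₀ j₀ with hk
  have uniq : ∀ l, 2 * ν l ≤ m → m < 2 * ν (l + 1) → l = k := by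
    intro l h1 h2
    rcases lt_trichotomy l k with h | h | h
    · have := hmono (show l + 1 ≤ k by omega)
      omega
    · exact h
    · have := hmono (show k + 1 ≤ l by omega)
      omega
  set P₁ : Finset (ℕ × ℕ) := ((S k ×ˢ S k).filter fun z => z.1 + z.2 = m - 4 * ν k).image
    fun z => (2 * ν k + z.1, 2 * ν k + z.2) with hP₁
  set W : Finset ℕ := (S k).filter fun x => m - 3 * ν k ≤ x ∧
    x < m - 3 * ν k + (2 * ν k + 1 + k) with hW
  set P₂ : Finset (ℕ × ℕ) := W.image fun x => (2 * ν k + x, m - (2 * ν k + x)) with hP₂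
  set P₃ : Finset (ℕ × ℕ) := W.image fun x => (m - (2 * ν k + x), 2 * ν k + x) with hP₃
  have hsub : {z : ℕ × ℕ | (∃ k, ∃ x ∈ S k, z.1 = 2 * ν k + x) ∧
      (∃ k, ∃ x ∈ S k, z.2 = 2 * ν k + x) ∧ z.1 + z.2 = m} ⊆ ((P₁ ∪ P₂ ∪ P₃ : Finset _) : Set _) := by
    rintro z ⟨⟨i, x, hx, e⟩, ⟨j, y, hy, f⟩, s⟩
    have t := top z i j x hx y hy e f s
    have hmax := uniq _ t.1 t.2
    have a1 := hν i x hx
    have a2 := hν j y hy
    simp only [Finset.coe_union, Set.mem_union, Finset.mem_coe]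
    rcases lt_trichotomy i j with h | h | h
    · -- second coordinate on top
      right
      rw [max_eq_right h.le] at hmax
      subst hmax
      have b := hmono (show i + 1 ≤ k by omega)
      rw [hP₃, Finset.mem_image]
      refine ⟨y, ?_, ?_⟩
      · rw [hW, Finset.mem_filter]
        exact ⟨hy, by omega, by omega⟩
      · exact Prod.ext (by simp only; omega) (by simp only; omega)
    · left; left
      subst h
      rw [max_self] at hmax
      subst hmax
      rw [hP₁, Finset.mem_image]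
      refine ⟨(x, y), ?_, Prod.ext e.symm f.symm⟩
      rw [Finset.mem_filter, Finset.mem_product]
      exact ⟨⟨hx, hy⟩, by simp only; omega⟩
    · left; right
      rw [max_eq_left h.le] at hmax
      subst hmax
      have b := hmono (show j + 1 ≤ k by omega)
      rw [hP₂, Finset.mem_image]
      refine ⟨x, ?_, ?_⟩
      · rw [hW, Finset.mem_filter]
        exact ⟨hx, by omega, by omega⟩
      · exact Prod.ext (by simp only; omega) (by simp only; omega)
  have hc : (P₁ ∪ P₂ ∪ P₃).card ≤ R + 2 * w := by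
    have c1 : P₁.card ≤ R := le_trans Finset.card_image_le (hrep k _)
    have c2 : P₂.card ≤ w := le_trans Finset.card_image_le (hwin k _)
    have c3 : P₃.card ≤ w := le_trans Finset.card_image_le (hwin k _)
    have := Finset.card_union_le (P₁ ∪ P₂) P₃
    have := Finset.card_union_le P₁ P₂
    omega
  refine le_trans (Set.encard_le_encard hsub) ?_
  rw [Set.encard_coe_eq_coe_finsetCard]
  exact_mod_cast hc

end Pool.Agent.H41.DS
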