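import Pool.Agent.H41.DS.Field

/-!
One scale: a finite set of integers with few representations, covering a long interval.
-/

set_option autoImplicit false

namespace Pool.Agent.H41.DS

open Finset

variable {p : ℕ} [Fact p.Prime] (K : Coef p) (L : ℕ)

/-- Parameters. -/
abbrev Par (p L : ℕ) : Type := Fin 3 × ZMod p × Fin L × Fin L

/-- First digit. -/
def dX (q : Par p L) : ℕ := q.2.1.val + q.2.2.1 * p

/-- Second digit. -/
def dY (q : Par p L) : ℕ := (K.c q.1 * q.2.1 ^ 2).val + q.2.2.2 * p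

/-- The integer with these digits in base `2Lp`. -/
def ev (q : Par p L) : ℕ := dX L q + 2 * L * p * dY K L q

theorem dX_lt (q : Par p L) : dX L q < L * p := by
  have h1 : q.2.1.val < p := ZMod.val_lt _
  have h2 : (q.2.2.1 : ℕ) + 1 ≤ L := q.2.2.1.isLt
  have h3 : ((q.2.2.1 : ℕ) + 1) * p ≤ L * p := Nat.mul_le_mul_right _ h2
  unfold dX
  nlinarith

theorem dY_lt (q : Par p L) : dY K L q < L * p := by
  have h1 : (K.c q.1 * q.2.1 ^ 2).val < p := ZMod.val_lt _
  have h2 : (q.2.2.2 : ℕ) + 1 ≤ L := q.2.2.2.isLt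
  have h3 : ((q.2.2.2 : ℕ) + 1) * p ≤ L * p := Nat.mul_le_mul_right _ h2
  unfold dY
  nlinarith

omit [Fact (Nat.Prime p)] in
theorem dig_inj {a b j j' : ℕ} (ha : a < p) (hb : b < p) (h : a + j * p = b + j' * p) :
    a = b ∧ j = j' := by
  have h1 : (a + j * p) % p = (b + j' * p) % p := by rw [h]
  rw [Nat.add_mul_mod_self_right, Nat.add_mul_mod_self_right, Nat.mod_eq_of_lt ha,
    Nat.mod_eq_of_lt hb] at h1
  refine ⟨h1, ?_⟩
  have hp : 0 < p := by omega
  have h2 : j * p = j' * p := by omega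
  exact Nat.eq_of_mul_eq_mul_right hp h2

theorem base_split {W a b A B : ℕ} (ha : a < W) (hb : b < W) (h : a + W * A = b + W * B) :
    a = b ∧ A = B := by
  have h1 : (a + W * A) % W = (b + W * B) % W := by rw [h]
  rw [Nat.add_mul_mod_self_left, Nat.add_mul_mod_self_left, Nat.mod_eq_of_lt ha,
    Nat.mod_eq_of_lt hb] at h1
  refine ⟨h1, ?_⟩
  have hW : 0 < W := by omega
  have h2 : W * A = W * B := by omega
  exact Nat.eq_of_mul_eq_mul_left hW h2

theorem ev_inj {q q' : Par p L} (hi : q.1 = q'.1) (h : ev K L q = ev K L q') : q = q' := by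
  have hW : L * p ≤ 2 * L * p := by nlinarith [Nat.zero_le (L * p)]
  obtain ⟨hX, hY⟩ := base_split (lt_of_lt_of_le (dX_lt L q) hW) (lt_of_lt_of_le (dX_lt L q') hW) h
  obtain ⟨hx, hj⟩ := dig_inj (ZMod.val_lt _) (ZMod.val_lt _) hX
  have hx' : q.2.1 = q'.2.1 := ZMod.val_injective _ hx
  obtain ⟨_, hj'⟩ := dig_inj (ZMod.val_lt _) (ZMod.val_lt _) hY
  refine Prod.ext hi (Prod.ext hx' (Prod.ext (Fin.ext hj) (Fin.ext hj')))

/-- The number of parameter pairs with a given sum. -/
theorem cnt (n : ℕ) :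
    (univ.filter fun z : Par p L × Par p L => ev K L z.1 + ev K L z.2 = n).card ≤ 18 * L ^ 2 := by
  classical
  set W := 2 * L * p with hW
  set s : ZMod p := ((n % W : ℕ) : ZMod p) with hs
  set t : ZMod p := ((n / W : ℕ) : ZMod p) with ht
  set root : Fin 3 × Fin 3 → Finset (ZMod p) := fun ij => univ.filter fun x : ZMod p =>
    (K.c ij.1 + K.c ij.2) * x ^ 2 + (-2 * K.c ij.2 * s) * x + (K.c ij.2 * s ^ 2 - t) = 0 with hroot
  set tgt : Finset ((Fin 3 × Fin 3) × ZMod p × Fin L × Fin L) :=
    univ.filter fun w => w.2.1 ∈ root w.1 with htgt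
  have hcard : tgt.card ≤ 18 * L ^ 2 := by
    rw [htgt, Finset.card_filter]
    simp only [Fintype.sum_prod_type (α₁ := Fin 3 × Fin 3)]
    have h1 : ∀ ij : Fin 3 × Fin 3, (∑ y : ZMod p × Fin L × Fin L,
        (if y.1 ∈ root ij then 1 else 0)) = (root ij).card * (L * L) := by
      intro ij
      rw [Fintype.sum_prod_type]
      have h2 : ∀ x : ZMod p, (∑ _y : Fin L × Fin L, if x ∈ root ij then 1 else 0) =
          if x ∈ root ij then L * L else 0 := by
        intro x
        split_ifs
        · rw [Finset.sum_const, Finset.card_univ, Fintype.card_prod, Fintype.card_fin]; simp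
        · simp
      calc (∑ x : ZMod p, ∑ _y : Fin L × Fin L, if x ∈ root ij then 1 else 0) =
          ∑ x : ZMod p, if x ∈ root ij then L * L else 0 := Finset.sum_congr rfl fun x _ => h2 x
        _ = (root ij).card * (L * L) := by
          rw [← Finset.sum_filter, Finset.sum_const, smul_eq_mul, Finset.filter_mem_eq_inter,
            Finset.univ_inter]
    calc (∑ ij : Fin 3 × Fin 3, ∑ y : ZMod p × Fin L × Fin L,
        (if y.1 ∈ root ij then 1 else 0)) = ∑ ij : Fin 3 × Fin 3, (root ij).card * (L * L) :=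
          Finset.sum_congr rfl fun ij _ => h1 ij
      _ ≤ ∑ ij : Fin 3 × Fin 3, 2 * (L * L) := by
          refine Finset.sum_le_sum fun ij _ => Nat.mul_le_mul_right _ ?_
          exact card_roots_le_two (K.ne _ _)
      _ = 18 * L ^ 2 := by
          rw [Finset.sum_const, Finset.card_univ, Fintype.card_prod, Fintype.card_fin]
          simp only [smul_eq_mul]; ring
  refine le_trans (Finset.card_le_card_of_injOn
    (fun z => ((z.1.1, z.2.1), z.1.2.1, z.1.2.2.1, z.1.2.2.2)) ?_ ?_) hcard
  · intro z hz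
    simp only [Finset.coe_filter, Finset.mem_univ, true_and, Set.mem_ofPred_eq] at hz
    simp only [htgt, hroot, Finset.coe_filter, Finset.mem_univ, true_and, Set.mem_ofPred_eq,
      Finset.mem_filter]
    have hsum : (dX L z.1 + dX L z.2) + W * (dY K L z.1 + dY K L z.2) = n := by
      rw [← hz]; unfold ev; ring
    have hXW : dX L z.1 + dX L z.2 < W := by
      have h1 := dX_lt L z.1
      have h2 := dX_lt L z.2
      rw [hW]; nlinarith
    have hmod : n % W = dX L z.1 + dX L z.2 := by
      rw [← hsum, Nat.add_mul_mod_self_left, Nat.mod_eq_of_lt hXW]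
    have hdiv : n / W = dY K L z.1 + dY K L z.2 := by
      rw [← hsum, Nat.add_mul_div_left _ _ (by omega), Nat.div_eq_of_lt hXW, zero_add]
    have hs' : s = z.1.2.1 + z.2.2.1 := by
      rw [hs, hmod]
      unfold dX
      push_cast
      simp only [ZMod.natCast_val, ZMod.cast_id', id, CharP.cast_eq_zero, mul_zero, add_zero]
    have ht' : t = K.c z.1.1 * z.1.2.1 ^ 2 + K.c z.2.1 * z.2.2.1 ^ 2 := by
      rw [ht, hdiv]
      unfold dY
      push_cast
      simp only [ZMod.natCast_val, ZMod.cast_id', id, CharP.cast_eq_zero, mul_zero, add_zero]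
    rw [hs', ht']
    ring
  · intro z hz z' hz' h
    simp only [Finset.coe_filter, Finset.mem_univ, true_and, Set.mem_ofPred_eq] at hz hz'
    simp only [Prod.mk.injEq] at h
    obtain ⟨⟨h1, h2⟩, h3, h4, h5⟩ := h
    have e1 : z.1 = z'.1 := Prod.ext h1 (Prod.ext h3 (Prod.ext h4 h5))
    have e2 : z.2 = z'.2 := by
      apply ev_inj K L h2
      rw [e1] at hz
      omega
    exact Prod.ext e1 e2

/-- Few elements in a short window. -/
theorem win (hL : 1 ≤ L) (u v : ℕ) :
    (univ.filter fun q : Par p L => u ≤ v + ev K L q ∧ v + ev K L q < u + p).card ≤ 6 := by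
  classical
  rcases Finset.eq_empty_or_nonempty
    (univ.filter fun q : Par p L => u ≤ v + ev K L q ∧ v + ev K L q < u + p) with h0 | ⟨q₀, hq₀⟩
  · rw [h0]; simp
  simp only [Finset.mem_filter, Finset.mem_univ, true_and] at hq₀
  set y₀ := K.c q₀.1 * q₀.2.1 ^ 2 with hy₀
  set root : Fin 3 → Finset (ZMod p) := fun i => univ.filter fun x : ZMod p =>
    K.c i * x ^ 2 + 0 * x + (-y₀) = 0 with hroot
  set tgt : Finset (Fin 3 × ZMod p) := univ.filter fun w => w.2 ∈ root w.1 with htgt
  have hcard : tgt.card ≤ 6 := by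
    rw [htgt, Finset.card_filter, Fintype.sum_prod_type]
    have h1 : ∀ i : Fin 3, (∑ x : ZMod p, (if x ∈ root i then 1 else 0)) ≤ 2 := by
      intro i
      rw [← Finset.card_filter, Finset.filter_mem_eq_inter, Finset.univ_inter]
      exact card_roots_le_two (K.ne0 i)
    calc (∑ i : Fin 3, ∑ x : ZMod p, (if x ∈ root i then 1 else 0)) ≤ ∑ i : Fin 3, 2 :=
          Finset.sum_le_sum fun i _ => h1 i
      _ = 6 := by simp
  have hLp : p ≤ L * p := Nat.le_mul_of_pos_left p hL
  have key : ∀ q : Par p L, u ≤ v + ev K L q → v + ev K L q < u + p →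
      K.c q.1 * q.2.1 ^ 2 = y₀ ∧ q.2.2.2 = q₀.2.2.2 := by
    intro q h1 h2
    have hX := dX_lt L q
    have hX0 := dX_lt L q₀
    have hYeq : dY K L q = dY K L q₀ := by
      rcases lt_trichotomy (dY K L q) (dY K L q₀) with hlt | heq | hgt
      · exfalso
        have h3 : 2 * L * p * dY K L q + 2 * L * p ≤ 2 * L * p * dY K L q₀ := by
          have := Nat.mul_le_mul_left (2 * L * p) (Nat.succ_le_of_lt hlt)
          rwa [Nat.mul_succ] at this
        unfold ev at h1 h2 hq₀
        have h4 : 2 * L * p = L * p + L * p := by ring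
        omega
      · exact heq
      · exfalso
        have h3 : 2 * L * p * dY K L q₀ + 2 * L * p ≤ 2 * L * p * dY K L q := by
          have := Nat.mul_le_mul_left (2 * L * p) (Nat.succ_le_of_lt hgt)
          rwa [Nat.mul_succ] at this
        unfold ev at h1 h2 hq₀
        have h4 : 2 * L * p = L * p + L * p := by ring
        omega
    obtain ⟨h5, h6⟩ := dig_inj (ZMod.val_lt _) (ZMod.val_lt _) hYeq
    exact ⟨ZMod.val_injective _ h5, Fin.ext h6⟩
  refine le_trans (Finset.card_le_card_of_injOn (fun q => (q.1, q.2.1)) ?_ ?_) hcard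
  · intro q hq
    simp only [Finset.coe_filter, Finset.mem_univ, true_and, Set.mem_ofPred_eq] at hq
    simp only [htgt, hroot, Finset.coe_filter, Finset.mem_univ, true_and, Set.mem_ofPred_eq,
      Finset.mem_filter]
    rw [(key q hq.1 hq.2).1]; ring
  · intro q hq q' hq' h
    simp only [Finset.coe_filter, Finset.mem_univ, true_and, Set.mem_ofPred_eq] at hq hq'
    simp only [Prod.mk.injEq] at h
    obtain ⟨hi, hx⟩ := h
    have k1 := (key q hq.1 hq.2).2
    have k2 := (key q' hq'.1 hq'.2).2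
    have hY : dY K L q = dY K L q' := by
      unfold dY; rw [hi, hx, k1, k2]
    refine Prod.ext hi (Prod.ext hx (Prod.ext (Fin.ext ?_) (k1.trans k2.symm)))
    unfold ev at hq hq'
    rw [hY] at hq
    have hXa : dX L q = q.2.1.val + q.2.2.1 * p := rfl
    have hXb : dX L q' = q.2.1.val + q'.2.2.1 * p := by rw [hx]; rfl
    rcases lt_trichotomy (q.2.2.1 : ℕ) (q'.2.2.1 : ℕ) with hlt | heq | hgt
    · exfalso
      have := Nat.mul_le_mul_right p (Nat.succ_le_of_lt hlt)
      rw [Nat.succ_mul] at this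
      omega
    · exact heq
    · exfalso
      have := Nat.mul_le_mul_right p (Nat.succ_le_of_lt hgt)
      rw [Nat.succ_mul] at this
      omega

/-- Splitting a digit. -/
theorem split_digit {L m : ℕ} (h1 : p ≤ m) (h2 : m < (2 * L - 1) * p) (r₁ r₂ : ZMod p)
    (h : r₁ + r₂ = (m : ZMod p)) :
    ∃ j j' : Fin L, r₁.val + j * p + (r₂.val + j' * p) = m := by
  have hp : 0 < p := (Fact.out : p.Prime).pos
  have hr1 := ZMod.val_lt r₁
  have hr2 := ZMod.val_lt r₂
  have hmod : (r₁.val + r₂.val) ≡ m [MOD p] := by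
    rw [← ZMod.natCast_eq_natCast_iff]
    push_cast
    simp only [ZMod.natCast_val, ZMod.cast_id', id]
    exact h
  have hle : r₁.val + r₂.val ≤ m := by
    by_contra hcon
    push Not at hcon
    have h3 : p ∣ (r₁.val + r₂.val) - m := (Nat.modEq_iff_dvd' hcon.le).mp hmod.symm
    have h4 := Nat.le_of_dvd (by omega) h3
    omega
  obtain ⟨k, hk⟩ := (Nat.modEq_iff_dvd' hle).mp hmod
  have hk2 : k < 2 * L - 1 := by
    by_contra hcon
    push Not at hcon
    have := Nat.mul_le_mul_right p hcon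
    rw [mul_comm k p] at this
    omega
  have hL : 0 < L := by omega
  refine ⟨⟨min k (L - 1), by omega⟩, ⟨k - min k (L - 1), by omega⟩, ?_⟩
  simp only
  have h5 : min k (L - 1) * p + (k - min k (L - 1)) * p = p * k := by
    rw [← add_mul, Nat.add_sub_cancel' (min_le_left _ _), mul_comm]
  omega

/-- Covering by digits in the middle range. -/
theorem cover_mid {n : ℕ} (h1 : p ≤ n % (2 * L * p)) (h2 : n % (2 * L * p) < (2 * L - 1) * p)
    (h3 : p ≤ n / (2 * L * p)) (h4 : n / (2 * L * p) < (2 * L - 1) * p) :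
    ∃ q q' : Par p L, ev K L q + ev K L q' = n := by
  obtain ⟨i, i', x, hx⟩ := K.cover ((n % (2 * L * p) : ℕ) : ZMod p) ((n / (2 * L * p) : ℕ) : ZMod p)
  obtain ⟨j, j', hj⟩ := split_digit (L := L) h1 h2 x (((n % (2 * L * p) : ℕ) : ZMod p) - x)
    (by ring)
  obtain ⟨k, k', hk⟩ := split_digit (L := L) h3 h4 _ _ hx
  refine ⟨(i, x, j, k), (i', ((n % (2 * L * p) : ℕ) : ZMod p) - x, j', k'), ?_⟩
  unfold ev dX dY
  simp only
  have := Nat.mod_add_div n (2 * L * p)
  calc _ = (x.val + j * p + ((((n % (2 * L * p) : ℕ) : ZMod p) - x).val + j' * p)) +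
      2 * L * p * ((K.c i * x ^ 2).val + k * p +
        ((K.c i' * (((n % (2 * L * p) : ℕ) : ZMod p) - x) ^ 2).val + k' * p)) := by ring
    _ = n := by rw [hj, hk]; exact this

/-- Covering of an interval with one shift. -/
theorem cover_all (hL : 2 ≤ L) {n : ℕ} (h1 : (p + 1) * (2 * L * p) ≤ n)
    (h2 : n < (2 * L - 1) * p * (2 * L * p)) :
    ∃ (h : ℕ) (q q' : Par p L), h ≤ 1 ∧ ev K L q + (2 * p * h + ev K L q') = n := by
  have hp : 0 < p := (Fact.out : p.Prime).pos
  set W := 2 * L * p with hW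
  have hWpos : 0 < W := by rw [hW]; positivity
  have hWp : W = (2 * L - 1) * p + p := by
    rw [hW]
    have : 2 * L = (2 * L - 1) + 1 := by omega
    conv_lhs => rw [this]
    ring
  have hW4 : 4 * p ≤ W := by rw [hW]; nlinarith
  have hlt : n / W < (2 * L - 1) * p := Nat.div_lt_of_lt_mul (by rwa [mul_comm])
  have hge : p + 1 ≤ n / W := by rwa [Nat.le_div_iff_mul_le hWpos]
  have hdm := Nat.div_add_mod n W
  have hmodlt := Nat.mod_lt n hWpos
  by_cases ha : n % W < p
  · -- shift, borrowing from the second digit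
    have hn2 : 2 * p ≤ n := by
      have : W * (p + 1) ≤ W * (n / W) := Nat.mul_le_mul_left _ hge
      nlinarith
    have hq : n - 2 * p = (W - 2 * p + n % W) + W * (n / W - 1) := by
      have : W * (n / W) = W * (n / W - 1) + W := by
        conv_lhs => rw [show n / W = (n / W - 1) + 1 by omega]
        ring
      omega
    have hm : (n - 2 * p) % W = W - 2 * p + n % W := by
      rw [hq, Nat.add_mul_mod_self_left, Nat.mod_eq_of_lt (by omega)]
    have hd : (n - 2 * p) / W = n / W - 1 := by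
      rw [hq, Nat.add_mul_div_left _ _ hWpos, Nat.div_eq_of_lt (by omega), zero_add]
    obtain ⟨q, q', hqq⟩ := cover_mid K L (n := n - 2 * p) (by rw [← hW, hm]; omega)
      (by rw [← hW, hm]; omega) (by rw [← hW, hd]; omega) (by rw [← hW, hd]; omega)
    exact ⟨1, q, q', le_rfl, by omega⟩
  · by_cases hb : n % W < (2 * L - 1) * p
    · obtain ⟨q, q', hqq⟩ := cover_mid K L (n := n) (by rw [← hW]; omega)
        (by rw [← hW]; omega) (by rw [← hW]; omega) (by rw [← hW]; omega)
      exact ⟨0, q, q', by omega, by omega⟩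
    · have hq : n - 2 * p = (n % W - 2 * p) + W * (n / W) := by omega
      have hm : (n - 2 * p) % W = n % W - 2 * p := by
        rw [hq, Nat.add_mul_mod_self_left, Nat.mod_eq_of_lt (by omega)]
      have hd : (n - 2 * p) / W = n / W := by
        rw [hq, Nat.add_mul_div_left _ _ hWpos, Nat.div_eq_of_lt (by omega), zero_add]
      obtain ⟨q, q', hqq⟩ := cover_mid K L (n := n - 2 * p) (by rw [← hW, hm]; omega)
        (by rw [← hW, hm]; omega) (by rw [← hW, hd]; omega) (by rw [← hW, hd]; omega)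
      exact ⟨1, q, q', le_rfl, by omega⟩

end Pool.Agent.H41.DS
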