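import Pool.Agent.H41.DS.Scale

/-!
One scale as a finite set of natural numbers.
-/

set_option autoImplicit false

namespace Pool.Agent.H41.DS

open Finset

/-- One scale. -/
theorem scale {L : ℕ} (hL : 2 ≤ L) (M : ℕ) :
    ∃ (S : Finset ℕ) (lo hi B : ℕ),
      (∀ n, ((S ×ˢ S).filter fun z => z.1 + z.2 = n).card ≤ 72 * L ^ 2) ∧
      (∀ u, (S.filter fun x => u ≤ x ∧ x < u + M).card ≤ 12) ∧
      M ≤ lo ∧ (2 * L - 1) * lo ≤ 2 * hi ∧
      (∀ n, lo ≤ n → n < hi → ∃ a ∈ S, ∃ b ∈ S, a + b = n) ∧
      (∀ x ∈ S, x < B) := by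
  classical
  obtain ⟨p, hMp, hF, ⟨K⟩⟩ := exists_prime_coef M
  have hp : 0 < p := hF.out.pos
  set f : Fin 2 × Par p L → ℕ := fun z => 2 * p * z.1 + ev K L z.2 with hf
  set S : Finset ℕ := univ.image f with hS
  refine ⟨S, (p + 1) * (2 * L * p), (2 * L - 1) * p * (2 * L * p), S.sup id + 1, ?_, ?_, ?_, ?_,
    ?_, ?_⟩
  · intro n
    have h1 : ((S ×ˢ S).filter fun z => z.1 + z.2 = n) ⊆
        ((univ : Finset ((Fin 2 × Par p L) × (Fin 2 × Par p L))).filter
          fun z => f z.1 + f z.2 = n).image fun z => (f z.1, f z.2) := by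
      intro z hz
      simp only [Finset.mem_filter, Finset.mem_product, hS, Finset.mem_image, Finset.mem_univ,
        true_and] at hz
      obtain ⟨⟨⟨a, ha⟩, ⟨b, hb⟩⟩, hz⟩ := hz
      simp only [Finset.mem_image, Finset.mem_filter, Finset.mem_univ, true_and]
      exact ⟨(a, b), by rw [ha, hb]; exact hz, by rw [ha, hb]⟩
    refine le_trans (Finset.card_le_card h1) (le_trans Finset.card_image_le ?_)
    have h2 := Finset.card_le_mul_card_image_of_maps_to
      (s := (univ : Finset ((Fin 2 × Par p L) × (Fin 2 × Par p L))).filter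
          fun z => f z.1 + f z.2 = n)
      (t := (univ : Finset (Fin 2 × Fin 2))) (f := fun z => (z.1.1, z.2.1))
      (fun _ _ => Finset.mem_univ _) (18 * L ^ 2) ?_
    · rw [Finset.card_univ, Fintype.card_prod, Fintype.card_fin] at h2
      linarith
    · rintro ⟨h, h'⟩ -
      refine le_trans (Finset.card_le_card_of_injOn (fun z => (z.1.2, z.2.2)) ?_ ?_)
        (cnt K L (n - 2 * p * h - 2 * p * h'))
      · intro z hz
        simp only [Finset.coe_filter, Finset.mem_univ, true_and, Set.mem_ofPred_eq,
          Finset.mem_filter, Prod.mk.injEq] at hz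
        obtain ⟨hz, hz1, hz2⟩ := hz
        simp only [Finset.coe_filter, Finset.mem_univ, true_and, Set.mem_ofPred_eq]
        simp only [hf, hz1, hz2] at hz
        omega
      · intro z hz z' hz' heq
        simp only [Finset.coe_filter, Finset.mem_univ, true_and, Set.mem_ofPred_eq,
          Finset.mem_filter, Prod.mk.injEq] at hz hz' heq
        exact Prod.ext (Prod.ext (hz.2.1.trans hz'.2.1.symm) heq.1)
          (Prod.ext (hz.2.2.trans hz'.2.2.symm) heq.2)
  · intro u
    have h1 : (S.filter fun x => u ≤ x ∧ x < u + M) ⊆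
        ((univ : Finset (Fin 2 × Par p L)).filter
          fun z => u ≤ f z ∧ f z < u + p).image f := by
      intro x hx
      simp only [Finset.mem_filter, hS, Finset.mem_image, Finset.mem_univ, true_and] at hx
      obtain ⟨⟨a, ha⟩, hx1, hx2⟩ := hx
      simp only [Finset.mem_image, Finset.mem_filter, Finset.mem_univ, true_and]
      exact ⟨a, ⟨by rw [ha]; exact hx1, by rw [ha]; omega⟩, ha⟩
    refine le_trans (Finset.card_le_card h1) (le_trans Finset.card_image_le ?_)
    have h2 := Finset.card_le_mul_card_image_of_maps_to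
      (s := (univ : Finset (Fin 2 × Par p L)).filter fun z => u ≤ f z ∧ f z < u + p)
      (t := (univ : Finset (Fin 2))) (f := fun z => z.1)
      (fun _ _ => Finset.mem_univ _) 6 ?_
    · rw [Finset.card_univ, Fintype.card_fin] at h2
      exact h2
    · rintro h -
      refine le_trans (Finset.card_le_card_of_injOn (fun z => z.2) ?_ ?_)
        (win K L (by omega) u (2 * p * h))
      · intro z hz
        simp only [Finset.coe_filter, Finset.mem_univ, true_and, Set.mem_ofPred_eq,
          Finset.mem_filter] at hz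
        obtain ⟨hz, hz1⟩ := hz
        simp only [Finset.coe_filter, Finset.mem_univ, true_and, Set.mem_ofPred_eq]
        simp only [hf, hz1] at hz
        exact hz
      · intro z hz z' hz' heq
        simp only [Finset.coe_filter, Finset.mem_univ, true_and, Set.mem_ofPred_eq,
          Finset.mem_filter] at hz hz'
        exact Prod.ext (hz.2.trans hz'.2.symm) heq
  · have h1 : 1 ≤ 2 * L * p := by
      have : 0 < 2 * L * p := by positivity
      omega
    nlinarith
  · have h1 : p + 1 ≤ 2 * p := by omega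
    calc (2 * L - 1) * ((p + 1) * (2 * L * p)) = (2 * L - 1) * (2 * L * p) * (p + 1) := by ring
      _ ≤ (2 * L - 1) * (2 * L * p) * (2 * p) := Nat.mul_le_mul_left _ h1
      _ = 2 * ((2 * L - 1) * p * (2 * L * p)) := by ring
  · intro n hn1 hn2
    obtain ⟨h, q, q', hh, heq⟩ := cover_all K L hL hn1 hn2
    refine ⟨ev K L q, ?_, 2 * p * h + ev K L q', ?_, heq⟩
    · rw [hS, Finset.mem_image]
      exact ⟨(0, q), Finset.mem_univ _, by simp [hf]⟩
    · rw [hS, Finset.mem_image]
      exact ⟨(⟨h, by omega⟩, q'), Finset.mem_univ _, by simp [hf]⟩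
  · intro x hx
    have := Finset.le_sup (f := id) hx
    simp only [id] at this
    omega

end Pool.Agent.H41.DS
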